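import Pool.Agent.R153.SpProd

set_option autoImplicit false

namespace Pool.Agent.Results.MP_3e0fcf_co.ContentHookSum

open Pool.Agent.R153.Sp PowerSeries
open scoped PowerSeries.WithPiTopology

/-- `a_n`: the sum over the partitions of `n` of the product of `c_sp / h`. -/
noncomputable def a (n : ℕ) : ℚ := ∑ μ ∈ diagrams n, ∏ c ∈ μ.cells, csp μ c / hook μ c

theorem neg_one_card {s : Multiset ℕ} (h : ∀ x ∈ s, x % 4 = 2) :
    (-1 : ℚ) ^ (Multiset.card s) = (-1) ^ (s.sum / 2) := by
  induction s using Multiset.induction with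
  | empty => simp
  | cons a s ih =>
    have ha := h a (Multiset.mem_cons_self a s)
    have hs : ∀ x ∈ s, x % 4 = 2 := fun x hx => h x (Multiset.mem_cons_of_mem hx)
    have hev : 2 ∣ s.sum := by
      apply Multiset.dvd_sum
      intro x hx
      have := hs x hx
      omega
    rw [Multiset.card_cons, Multiset.sum_cons, pow_succ, ih hs]
    obtain ⟨k, rfl⟩ : ∃ k, a = 4 * k + 2 := ⟨a / 4, by omega⟩
    have e : (4 * k + 2 + s.sum) / 2 = s.sum / 2 + 1 + 2 * k := by omega
    rw [e, pow_add, pow_mul, pow_succ]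
    simp

/-- the weight of a part -/
def f (i c : ℕ) : ℚ := if i % 4 = 2 then (-1) ^ c else 0

theorem coeff_eq (n : ℕ) (p : n.Partition) : p.parts.toFinsupp.prod f =
    if ∀ x ∈ p.parts, x % 4 = 2 then (-1) ^ (n / 2) else 0 := by
  have h1 : p.parts.toFinsupp.prod f =
      (p.parts.map (fun i => if i % 4 = 2 then (-1 : ℚ) else 0)).prod := by
    rw [Finset.prod_multiset_map_count]
    unfold Finsupp.prod
    rw [Multiset.toFinsupp_support]
    apply Finset.prod_congr rfl
    intro i hi
    rw [Multiset.toFinsupp_apply]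
    unfold f
    rw [Multiset.mem_toFinset] at hi
    have hc : Multiset.count i p.parts ≠ 0 := by
      rw [Multiset.count_ne_zero]; exact hi
    split_ifs
    · rfl
    · rw [zero_pow hc]
  rw [h1]
  split_ifs with h
  · have h2 : p.parts.map (fun i => if i % 4 = 2 then (-1 : ℚ) else 0) =
        p.parts.map (fun _ => (-1 : ℚ)) := by
      apply Multiset.map_congr rfl
      intro x hx
      rw [if_pos (h x hx)]
    rw [h2, Multiset.map_const', Multiset.prod_replicate, neg_one_card h, p.parts_sum]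
  · push Not at h
    obtain ⟨x, hx, hx2⟩ := h
    apply Multiset.prod_eq_zero
    rw [Multiset.mem_map]
    exact ⟨x, hx, if_neg hx2⟩

theorem a_eq : PowerSeries.mk a = Nat.Partition.genFun f := by
  ext n
  rw [PowerSeries.coeff_mk, Nat.Partition.coeff_genFun]
  unfold a
  rw [sum_prod]
  simp only [coeff_eq]
  unfold Nat.Partition.restricted
  rw [Finset.card_filter]
  push_cast
  rw [Finset.mul_sum]
  apply Finset.sum_congr rfl
  intro p _
  split_ifs <;> simp

theorem geom (i : ℕ) : (1 : PowerSeries ℚ) + ∑' j, ((-1 : ℚ) ^ (j + 1)) • X ^ ((i + 1) * (j + 1)) =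
    (1 + X ^ (i + 1))⁻¹ := by
  have h1 : PowerSeries.constantCoeff (-X ^ (i + 1) : PowerSeries ℚ) = 0 := by simp
  have h2 := PowerSeries.WithPiTopology.tsum_pow_mul_one_sub_of_constantCoeff_eq_zero h1
  have hsum : Summable (fun j : ℕ => (-X ^ (i + 1) : PowerSeries ℚ) ^ j) :=
    PowerSeries.WithPiTopology.summable_pow_of_constantCoeff_eq_zero h1
  have h3 : (1 : PowerSeries ℚ) + ∑' j, ((-1 : ℚ) ^ (j + 1)) • X ^ ((i + 1) * (j + 1)) =
      ∑' j : ℕ, (-X ^ (i + 1) : PowerSeries ℚ) ^ j := by
    rw [hsum.tsum_eq_zero_add, pow_zero]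
    congr 1
    apply tsum_congr
    intro j
    have e : (-X ^ (i + 1) : PowerSeries ℚ) ^ (j + 1) = (-1) ^ (j + 1) * (X ^ (i + 1)) ^ (j + 1) :=
      neg_pow _ _
    rw [e, ← pow_mul, PowerSeries.smul_eq_C_mul]
    simp
  have h4 : PowerSeries.constantCoeff (1 + X ^ (i + 1) : PowerSeries ℚ) ≠ 0 := by simp
  rw [sub_neg_eq_add] at h2
  rw [h3, eq_comm, PowerSeries.inv_eq_iff_mul_eq_one h4]
  exact h2

theorem result :
    HasProd (fun k : ℕ => ((1 + X ^ (4 * (k + 1) - 2))⁻¹ : PowerSeries ℚ)) (PowerSeries.mk a) := by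
  rw [a_eq]
  have h := Nat.Partition.hasProd_genFun f
  have hinj : Function.Injective (fun j : ℕ => 4 * j + 1) := fun a b hab => by
    simp only at hab; omega
  rw [← Function.Injective.hasProd_iff hinj] at h
  · have e : (fun k : ℕ => ((1 + X ^ (4 * (k + 1) - 2))⁻¹ : PowerSeries ℚ)) =
        ((fun i : ℕ => (1 : PowerSeries ℚ) + ∑' j, f (i + 1) (j + 1) • X ^ ((i + 1) * (j + 1))) ∘
          fun j => 4 * j + 1) := by
      ext1 k
      simp only [Function.comp]
      have e1 : 4 * (k + 1) - 2 = 4 * k + 1 + 1 := by omega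
      rw [e1, ← geom]
      congr 1
      apply tsum_congr
      intro j
      unfold f
      rw [if_pos (by omega)]
    rw [e]
    exact h
  · intro x hx
    have hx2 : (x + 1) % 4 ≠ 2 := by
      intro hcon
      apply hx
      exact ⟨x / 4, by simp only; omega⟩
    unfold f
    simp [hx2]

end Pool.Agent.Results.MP_3e0fcf_co.ContentHookSum
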